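import Pool.Agent.H319R2.LeighBridge
import Pool.Agent.Y57.HS.Traj2

/-!
# Leigh's Markov chain and the integers which arise from an arbitrary integer by changing a few digits

Let `C` be a finite closed communicating class of Leigh's chain of a generalised Collatz map `T` modulo `d`, with the number
`Λ = Λ_C`, and let `f` be a nonconstant polynomial with integer coefficients. In every base `q` coprime to `d` almost all integers `n`
which arise from an arbitrary integer `N` by changing `s` digits have the property that the trajectory of `f n`, if `f n ∈ S_C`, follows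
the law `Λ ^ j |f n|` for a number of steps proportional to `s`.
-/

set_option autoImplicit false

namespace Pool.Agent.Results.MP_39d40e_nt.FewDigitChanges

open Finset Polynomial Pool.Agent.H319R2.Leigh

/-- For `d ^ j ≤ Y` the term `T^j x` of the trajectory of `x` has absolute value `L ^ j |x|`, up to a
factor between `Y ^ (-ε)` and `Y ^ ε`. -/
def Follows (d : ℕ) (m r : ℤ → ℤ) (L ε Y : ℝ) (x : ℤ) : Prop :=
  ∀ j : ℕ, (d : ℝ) ^ j ≤ Y →
    Y ^ (-ε) * L ^ j * |(x : ℝ)| ≤ |(((T d m r)^[j] x : ℤ) : ℝ)| ∧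
    |(((T d m r)^[j] x : ℤ) : ℝ)| ≤ Y ^ ε * L ^ j * |(x : ℝ)|

/-- The digit number `i` (counted from the right, beginning with `0`) of `n` in base `q`. -/
def digit (q i n : ℕ) : ℕ := n / q ^ i % q

/-- The number which arises from the number `N` with at most `K` digits in base `q`, if for every `i ∈ S`
the digit number `i` is replaced by `φ i`. -/
def change (q K N : ℕ) (φ : ℕ → ℕ) (S : Finset ℕ) : ℕ :=
  ∑ i ∈ range K, (if i ∈ S then φ i else digit q i N) * q ^ i

open Classical in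
/-- The number of the choices of `s` of the `K` positions for which the number obtained by changing the digits of `N` at
the chosen positions (according to `φ`) does not have the property `E`. -/
noncomputable def exceptions (q K s N : ℕ) (φ : ℕ → ℕ) (E : ℕ → Prop) : ℕ :=
  ((powersetCard s (range K)).filter (fun S => ¬ E (change q K N φ S))).card

theorem exceptions_le {q K s N : ℕ} {φ : ℕ → ℕ} {E : ℕ → Prop} {X : ℝ}
    (h : ∀ A ⊆ powersetCard s (range K), (∀ S ∈ A, ¬ E (change q K N φ S)) → (A.card : ℝ) ≤ X) :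
    (exceptions q K s N φ E : ℝ) ≤ X := by
  classical
  unfold exceptions
  exact h _ (filter_subset _ _) (fun S hS => (mem_filter.1 hS).2)

section

variable {d : ℕ} {m r b : ℤ → ℤ} {e : ℤ → ℕ} {C : Finset (ℤ × ℕ)} {ρ : ℤ × ℕ → ℝ}

theorem lam_pos (D : Data d m r b e) : 0 < Lam d m C ρ := by
  unfold Lam
  apply Finset.prod_pos
  intro i hi
  rw [Finset.mem_range] at hi
  have h := (gm D).ne i (by positivity) (by exact_mod_cast hi)
  have h2 : ((m (i : ℤ) : ℤ) : ℝ) ≠ 0 := by exact_mod_cast h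
  have hd0 : (0 : ℝ) < d := by
    have : 0 < d := by have := D.two_le; omega
    exact_mod_cast this
  positivity

theorem mu_eq (D : Data d m r b e) (hC : Class d m r e C ρ) :
    Pool.Agent.Y927.GP.mu (gm D) C ρ = Real.log (Lam d m C ρ) := (log_Lam D hC).symm

theorem typ_iff (D : Data d m r b e) (hC : Class d m r e C ρ) (ε Y : ℝ) (x : ℤ) :
    Pool.Agent.Y927.GP.Typ (gm D) (Pool.Agent.Y927.GP.mu (gm D) C ρ) ε Y x ↔ Follows d m r (Lam d m C ρ) ε Y x := by
  unfold Pool.Agent.Y927.GP.Typ Follows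
  rw [mu_eq D hC, gm_T]
  have h1 : ∀ j : ℕ, Real.exp (j * Real.log (Lam d m C ρ)) = Lam d m C ρ ^ j := by
    intro j
    rw [Real.exp_nat_mul, Real.exp_log (lam_pos D)]
  simp only [h1]
  exact Iff.rfl

end

/-- **Main theorem.** Let `T` be a generalised Collatz map modulo `d`, `C` a finite closed communicating class of its Leigh chain with
stationary distribution `ρ`, `f` a polynomial of degree at least `1` with integer coefficients and `q ≥ 2` a base which is coprime
to `d`. In what follows `0 ≤ N < q ^ K` is an arbitrary integer, for every position `j` a digit `φ j` different from the digit of `N` in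
base `q` is prescribed, `s` of the `K ≥ 2 s` positions are chosen and the digits of `N` at these positions are replaced.
1. For every `ε > 0` there are `c, δ > 0` and `y₀` such that for all `s, K, y ≥ y₀`, `N` and `φ` and for all but at most a proportion
`y ^ (-δ)` of the choices the number `n` obtained has the following property: if `f n ∈ S_C`, then the trajectory of `f n` follows
the law `Λ_C ^ j |f n|` for `log_d Y` steps, for all `Y` with `y ≤ Y ≤ exp (c s)`.
2. If `Λ_C < 1` and `B > 0`, there are `η, δ > 0` and `s₀` such that for all `s ≥ s₀`, `K ≤ B s`, `N` and `φ` and for all but at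
most a proportion `exp (-δ s)` of the choices: if `f n ∈ S_C`, then some term of the trajectory of `f n` has absolute value at
most `|f n| ^ (1 - η)`.
3. If `Λ_C > 1` and `B > 0`, there are `η, δ > 0` and `s₀` such that for all `s ≥ s₀`, `K ≤ B s`, `N` and `φ` and for all but at
most a proportion `exp (-δ s)` of the choices: if `f n ∈ S_C`, then some term of the trajectory of `f n` has absolute value at
least `|f n| ^ (1 + η)`. -/
theorem result (d : ℕ) (m r b : ℤ → ℤ) (e : ℤ → ℕ) (D : Data d m r b e) (C : Finset (ℤ × ℕ))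
    (ρ : ℤ × ℕ → ℝ) (hC : Class d m r e C ρ) (f : ℤ[X]) (hf : 1 ≤ f.natDegree)
    (q : ℕ) (hq : 2 ≤ q) (hqd : Nat.Coprime q d) :
    (∀ ε : ℝ, 0 < ε → ∃ c δ : ℝ, 0 < c ∧ 0 < δ ∧ ∃ y₀ : ℕ, ∀ s K y : ℕ, 2 * s ≤ K → y₀ ≤ y →
      ∀ N : ℕ, N < q ^ K → ∀ φ : ℕ → ℕ, (∀ j, φ j < q ∧ φ j ≠ digit q j N) →
      (exceptions q K s N φ (fun n => f.eval (n : ℤ) ∈ S d C → ∀ Y : ℝ, y ≤ Y → Y ≤ Real.exp (c * s) →
        Follows d m r (Lam d m C ρ) ε Y (f.eval (n : ℤ))) : ℝ) ≤ (y : ℝ) ^ (-δ) * (K.choose s : ℝ)) ∧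
    (Lam d m C ρ < 1 → ∀ B : ℝ, ∃ η δ : ℝ, 0 < η ∧ 0 < δ ∧ ∃ s₀ : ℕ, ∀ s K : ℕ, s₀ ≤ s → 2 * s ≤ K → (K : ℝ) ≤ B * s →
      ∀ N : ℕ, N < q ^ K → ∀ φ : ℕ → ℕ, (∀ j, φ j < q ∧ φ j ≠ digit q j N) →
      (exceptions q K s N φ (fun n => f.eval (n : ℤ) ∈ S d C → ∃ k : ℕ,
        |(((T d m r)^[k] (f.eval (n : ℤ)) : ℤ) : ℝ)| ≤ |((f.eval (n : ℤ) : ℤ) : ℝ)| ^ (1 - η)) : ℝ) ≤
          Real.exp (-(δ * s)) * (K.choose s : ℝ)) ∧
    (1 < Lam d m C ρ → ∀ B : ℝ, ∃ η δ : ℝ, 0 < η ∧ 0 < δ ∧ ∃ s₀ : ℕ, ∀ s K : ℕ, s₀ ≤ s → 2 * s ≤ K → (K : ℝ) ≤ B * s →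
      ∀ N : ℕ, N < q ^ K → ∀ φ : ℕ → ℕ, (∀ j, φ j < q ∧ φ j ≠ digit q j N) →
      (exceptions q K s N φ (fun n => f.eval (n : ℤ) ∈ S d C → ∃ k : ℕ,
        |((f.eval (n : ℤ) : ℤ) : ℝ)| ^ (1 + η) ≤ |(((T d m r)^[k] (f.eval (n : ℤ)) : ℤ) : ℝ)|) : ℝ) ≤
          Real.exp (-(δ * s)) * (K.choose s : ℝ)) := by
  have hqd' : Nat.Coprime q (gm D).d := hqd
  refine ⟨fun ε hε => ?_, fun hlt B => ?_, fun hgt B => ?_⟩
  · obtain ⟨c, δ, hc, hδ, y₀, h⟩ := Pool.Agent.Y57.HS.traj (gm_fac D) (gm_cls D hC) hf q hq hqd' hε 0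
    refine ⟨c, δ, hc, hδ, y₀, fun s K y hsK hy N hN φ hφ => ?_⟩
    apply exceptions_le
    intro A hA hE
    refine h s K y hsK hy N hN φ hφ A hA (fun S hS => ?_)
    have h1 := hE S hS
    push Not at h1
    obtain ⟨h2, Y, h3, h4, h5⟩ := h1
    exact ⟨h2, Y, h3, h4, fun h6 => h5 ((typ_iff D hC ε Y _).1 h6.2)⟩
  · have hμ : Pool.Agent.Y927.GP.mu (gm D) C ρ < 0 := by
      rw [mu_eq D hC]
      exact Real.log_neg (lam_pos D) hlt
    obtain ⟨η, δ, hη, hδ, s₀, h⟩ := Pool.Agent.Y57.HS.drop_pow (gm_fac D) (gm_cls D hC) hμ hf q hq hqd' B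
    refine ⟨η, δ, hη, hδ, s₀, fun s K hs hsK hKB N hN φ hφ => ?_⟩
    apply exceptions_le
    intro A hA hE
    refine h s K hs hsK hKB N hN φ hφ A hA (fun S hS => ?_)
    have h1 := hE S hS
    push Not at h1
    exact h1
  · have hμ : 0 < Pool.Agent.Y927.GP.mu (gm D) C ρ := by
      rw [mu_eq D hC]
      exact Real.log_pos hgt
    obtain ⟨η, δ, hη, hδ, s₀, h⟩ := Pool.Agent.Y57.HS.rise_pow (gm_fac D) (gm_cls D hC) hμ hf q hq hqd' B
    refine ⟨η, δ, hη, hδ, s₀, fun s K hs hsK hKB N hN φ hφ => ?_⟩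
    apply exceptions_le
    intro A hA hE
    refine h s K hs hsK hKB N hN φ hφ A hA (fun S hS => ?_)
    have h1 := hE S hS
    push Not at h1
    exact h1

end Pool.Agent.Results.MP_39d40e_nt.FewDigitChanges
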