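import Pool.Agent.Results.MP_39d40e_nt.NaturalDensities
import Pool.Agent.Y965.GP.Fin3

/-!
# Generalised Collatz maps of coprime type along the sequences `⌊n ^ c⌋`

Maps of coprime type with `∏ |m_i / d| < 1`: the trajectories of the integers `± ⌊n ^ c⌋`, for every `c` in an
interval `(1, c₀)`.
-/

set_option autoImplicit false

namespace Pool.Agent.Results.MP_39d40e_nt.PiatetskiShapiroTerms

open Finset Filter Topology

/-- The generalised Collatz map `T(x) = (m_i x - r_i) / d` for `x ≡ i mod d`, `0 ≤ i < d`. -/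
def T (d : ℕ) (m r : ℕ → ℤ) (x : ℤ) : ℤ := (m (x % d).toNat * x - r (x % d).toNat) / d

/-- The data of a map of coprime type (`gcd(m_i, d) = 1`) with `Λ < 1`, that is `∏ |m_i / d| < 1`, and with
some `m_i` different from `1` and `-1`. -/
def Coprime (d : ℕ) (m r : ℕ → ℤ) : Prop :=
  2 ≤ d ∧ (∀ i < d, IsCoprime (m i) (d : ℤ)) ∧ (∀ i < d, r i ≡ i * m i [ZMOD d]) ∧
    ∏ i ∈ range d, |(m i : ℝ) / d| < 1 ∧ ∃ i < d, |m i| ≠ 1

/-- `F` takes the same value at `x` and `y` whenever the trajectories of `x` and `y` meet after `k` steps, where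
`d ^ (8 k) < |x|, |y|`: `T^k x = T^k y`. For example the characteristic functions of all unions of classes of
trajectories that meet. -/
def Synchronous (d : ℕ) (m r : ℕ → ℤ) (F : ℤ → ℝ) : Prop :=
  ∀ (k : ℕ) (x y : ℤ), (d : ℤ) ^ (8 * k) < |x| → (d : ℤ) ^ (8 * k) < |y| →
    (T d m r)^[k] x = (T d m r)^[k] y → F x = F y

/-- `S` is invariant: `x ∈ S` if and only if `T x ∈ S` (unions of classes of trajectories that
meet). -/
def Invariant (d : ℕ) (m r : ℕ → ℤ) (S : Set ℤ) : Prop := ∀ x : ℤ, x ∈ S ↔ T d m r x ∈ S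

/-- `S` has natural density `δ` on the side `σ` (`σ = 1`: positive integers, `σ = -1`: negative
integers): `#{x ∈ S : 1 ≤ σ x ≤ N} / N → δ`. -/
def HasDensity (S : Set ℤ) (σ : ℤ) (δ : ℝ) : Prop :=
  Tendsto (fun N : ℕ => (Set.ncard {x : ℤ | x ∈ S ∧ 1 ≤ σ * x ∧ σ * x ≤ N} : ℝ) / N) atTop (𝓝 δ)

lemma ncard_eq {σ : ℤ} (hσ : σ = 1 ∨ σ = -1) (S : Set ℤ) (N : ℕ) :
    (Set.ncard {x : ℤ | x ∈ S ∧ 1 ≤ σ * x ∧ σ * x ≤ N} : ℝ) =
      ∑ x ∈ Icc 1 N, Pool.Agent.Y965.GP.ind S (σ * (x : ℤ)) := by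
  classical
  unfold Pool.Agent.Y965.GP.ind
  rw [Finset.sum_boole]
  have hinj : Function.Injective (fun x : ℕ => σ * (x : ℤ)) := by
    intro a b hab
    simp only at hab
    rcases hσ with rfl | rfl <;> omega
  rw [← Finset.card_image_of_injective _ hinj, ← Set.ncard_coe_finset]
  congr 2
  ext x
  rw [coe_image, Set.mem_image]
  constructor
  · rintro ⟨h1, h2, h3⟩
    refine ⟨(σ * x).toNat, ?_, ?_⟩
    · have e : (((σ * x).toNat : ℕ) : ℤ) = σ * x := Int.toNat_of_nonneg (by omega)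
      have e2 : σ * (((σ * x).toNat : ℕ) : ℤ) = x := by
        rw [e]
        rcases hσ with rfl | rfl <;> ring
      rw [mem_coe, mem_filter, mem_Icc, e2]
      refine ⟨⟨by omega, by omega⟩, h1⟩
    · have e : (((σ * x).toNat : ℕ) : ℤ) = σ * x := Int.toNat_of_nonneg (by omega)
      rw [e]
      rcases hσ with rfl | rfl <;> ring
  · rintro ⟨u, hu, rfl⟩
    rw [mem_coe, mem_filter, mem_Icc] at hu
    refine ⟨hu.2, ?_, ?_⟩
    · rcases hσ with rfl | rfl <;> omega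
    · rcases hσ with rfl | rfl <;> omega

lemma DSs_iff {σ : ℤ} (hσ : σ = 1 ∨ σ = -1) (S : Set ℤ) (δ : ℝ) :
    Pool.Agent.Y965.GP.DSs σ S δ ↔ HasDensity S σ δ := by
  unfold Pool.Agent.Y965.GP.DSs HasDensity
  simp only [ncard_eq hσ]

lemma adm_of {d : ℕ} {m r : ℕ → ℤ} (hc : Coprime d m r) : H319R3.GC.Adm d m r := by
  obtain ⟨hd, hm, hr, hL, i, hi, hi1⟩ := hc
  have hd0 : (0 : ℝ) < d := by positivity
  have hadm : ∀ i < d, (d : ℤ) ∣ m i * i - r i := by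
    intro i hi
    have h1 := (hr i hi).dvd
    rwa [mul_comm (i : ℤ)] at h1
  have hc : ∏ i ∈ range d, (m i).natAbs < d ^ d := by
    have h1 : ∏ i ∈ range d, |(m i : ℝ) / d| = (∏ i ∈ range d, |(m i : ℝ)|) / (d : ℝ) ^ d := by
      simp only [abs_div, abs_of_pos hd0]
      rw [Finset.prod_div_distrib, Finset.prod_const, card_range]
    rw [h1, div_lt_one (by positivity)] at hL
    have h2 : ((∏ i ∈ range d, (m i).natAbs : ℕ) : ℝ) = ∏ i ∈ range d, |(m i : ℝ)| := by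
      push_cast
      refine Finset.prod_congr rfl fun i _ => ?_
      rw [Nat.cast_natAbs]
      push_cast
      rfl
    have h3 : ((∏ i ∈ range d, (m i).natAbs : ℕ) : ℝ) < ((d ^ d : ℕ) : ℝ) := by
      rw [h2]; push_cast; exact hL
    exact_mod_cast h3
  have hnz : ∀ i ∈ range d, 1 ≤ (m i).natAbs := by
    intro i hi
    rcases Nat.eq_zero_or_pos (m i).natAbs with h0 | h0
    · exfalso
      have h1 := hm i (mem_range.1 hi)
      rw [Int.natAbs_eq_zero.1 h0] at h1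
      have h2 := isCoprime_zero_left.1 h1
      have h3 := Int.isUnit_iff.1 h2
      omega
    · exact h0
  have hbig : 2 ≤ ∏ i ∈ range d, (m i).natAbs := by
    have h1 : 2 ≤ (m i).natAbs := by
      have h2 := hnz i (mem_range.2 hi)
      have h3 : (m i).natAbs ≠ 1 := by
        intro h4
        apply hi1
        rw [Int.abs_eq_natAbs, h4]
        rfl
      omega
    exact h1.trans (Nat.le_of_dvd (Finset.prod_pos fun i hi => hnz i hi)
        (Finset.dvd_prod_of_mem _ (mem_range.2 hi)))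
  exact ⟨hd, hm, hadm, hc, hbig⟩

open Classical in
/-- **Generalised Collatz maps along `⌊n ^ c⌋`.** For every generalised Collatz map `T` of coprime type with `Λ < 1`
(and some `m_i ≠ ± 1`) there are `c₀ > 1` and `δ > 0` such that for EVERY real `c` with `1 < c < c₀` and both signs
`σ`:
(1) there is `K` such that for ALL functions `F` with `|F| ≤ 1` which are synchronous and all `N ≥ 1` the sum of
`F (σ ⌊n ^ c⌋)` over the `n ≤ N` differs by at most `K N ^ (1 - δ)` from the sum of `F (σ x)` over all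
`x ≤ N ^ c` with the weights `(x + 1) ^ (1 / c) - x ^ (1 / c)`;
(2) for every `B` there is `C` such that for all `N ≥ 1` and all `y ≥ 2` for all but at most `C N / (log y) ^ B` of
the `n ≤ N` the trajectory of `σ ⌊n ^ c⌋` enters `[-y, y]`;
(3) if not all `|m_i|` are equal, for every `ε > 0`, all large `N` and ALL invariant sets `S` at once `S` has a
natural density on the side `σ` and the proportion of the `n ≤ N` with `σ ⌊n ^ c⌋ ∈ S` differs from it by at most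
`ε`. -/
theorem result (d : ℕ) (m r : ℕ → ℤ) (h : Coprime d m r) :
    ∃ c₀ δ : ℝ, 1 < c₀ ∧ 0 < δ ∧ ∀ c : ℝ, 1 < c → c < c₀ → ∀ σ : ℤ, (σ = 1 ∨ σ = -1) →
      (∃ K : ℝ, ∀ F : ℤ → ℝ, (∀ x, |F x| ≤ 1) → Synchronous d m r F → ∀ N : ℕ, 1 ≤ N →
        |∑ n ∈ Icc 1 N, F (σ * ⌊(n : ℝ) ^ c⌋) - ∑ x ∈ Icc 1 ⌊(N : ℝ) ^ c⌋₊,
          F (σ * (x : ℤ)) * (((x : ℝ) + 1) ^ (1 / c) - (x : ℝ) ^ (1 / c))| ≤ K * (N : ℝ) ^ (1 - δ)) ∧
      (∀ B : ℕ, ∃ C : ℝ, ∀ (N : ℕ) (y : ℝ), 1 ≤ N → 2 ≤ y →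
        (((Icc 1 N).filter (fun n : ℕ => ∀ k : ℕ,
          y < |(((T d m r)^[k] (σ * ⌊(n : ℝ) ^ c⌋) : ℤ) : ℝ)|)).card : ℝ) ≤ C * N / Real.log y ^ B) ∧
      ((∃ i < d, ∃ j < d, |m i| ≠ |m j|) → ∀ ε : ℝ, 0 < ε → ∃ N₀ : ℕ, ∀ N : ℕ, N₀ ≤ N →
        ∀ S : Set ℤ, Invariant d m r S → ∃ μ : ℝ, HasDensity S σ μ ∧
          |(((Icc 1 N).filter (fun n : ℕ => σ * ⌊(n : ℝ) ^ c⌋ ∈ S)).card : ℝ) / N - μ| ≤ ε) := by
  have hA := adm_of h
  obtain ⟨hd, hm, hr, hL, -⟩ := h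
  obtain ⟨a, ha0, ha, htr⟩ := Pool.Agent.Y965.GP.transfer hA
  refine ⟨1 / (1 - a), a, ?_, ha0, fun c hc hca σ hσ => ?_⟩
  · rw [lt_div_iff₀ (by linarith)]
    linarith
  obtain ⟨K, hK, hb⟩ := htr c hc hca
  refine ⟨⟨K, fun F h1 h2 N hN => ?_⟩, fun B => ?_, fun hne ε hε => ?_⟩
  · exact hb σ hσ N hN F (Pool.Agent.Y965.GP.syncN_of (by omega) h1 h2 _)
  · obtain ⟨C, hC, hbd⟩ := Pool.Agent.Y965.GP.av_bound hA ha0 hc hb hK B
    refine ⟨C, fun N y hN hy => ?_⟩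
    refine le_trans (le_of_eq ?_) (hbd σ hσ N y hN hy)
    unfold Pool.Agent.Y965.GP.ind
    rw [Finset.sum_boole]
    rfl
  · obtain ⟨r1, -, -⟩ := NaturalDensities.result d hd m r hm hr hL hne
    have hdens : ∀ S : Set ℤ, Pool.Agent.Y965.GP.InvT (T d m r) S → ∃ δ : ℝ, Pool.Agent.Y965.GP.DSs σ S δ := by
      intro S hS
      obtain ⟨p, q, hp, hq, -⟩ := r1 S hS
      rcases hσ with rfl | rfl
      · exact ⟨p, (DSs_iff (Or.inl rfl) S p).2 hp⟩
      · exact ⟨q, (DSs_iff (Or.inr rfl) S q).2 hq⟩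
    have hav : ∀ ε : ℝ, 0 < ε → ∃ y : ℕ, ∀ N : ℕ, 1 ≤ N →
        ∑ x ∈ Icc 1 N, Pool.Agent.Y965.GP.ind (Pool.Agent.Y965.GP.Av (T d m r) y) (σ * (x : ℤ)) ≤ ε * N := by
      intro ε hε
      obtain ⟨C, hC, hmn⟩ := Pool.Agent.H319R3.GC.main hA 1
      obtain ⟨y, hy⟩ := ((Real.tendsto_log_atTop.comp tendsto_natCast_atTop_atTop).eventually
        (eventually_ge_atTop (C / ε))).exists_forall_of_atTop
      refine ⟨max y 2, fun N hN => ?_⟩
      have hNR : (1 : ℝ) ≤ N := by exact_mod_cast hN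
      have hy2 : (2 : ℝ) ≤ ((max y 2 : ℕ) : ℝ) := by exact_mod_cast le_max_right y 2
      have hl : C / ε ≤ Real.log ((max y 2 : ℕ) : ℝ) := hy _ (le_max_left _ _)
      have hl0 : 0 < Real.log ((max y 2 : ℕ) : ℝ) := Real.log_pos (by linarith)
      refine (Pool.Agent.Y965.GP.sum_ind_le hσ _ N).trans ((hmn N _ hNR hy2).trans ?_)
      rw [pow_one, div_le_iff₀ hl0]
      rw [div_le_iff₀ hε] at hl
      calc C * N ≤ Real.log ((max y 2 : ℕ) : ℝ) * ε * N := mul_le_mul_of_nonneg_right hl (by linarith)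
        _ = ε * N * Real.log ((max y 2 : ℕ) : ℝ) := by ring
    have hnat := fun (ε : ℝ) (hε : 0 < ε) => Pool.Agent.Y965.GP.unif_nat hdens hav hε
    obtain ⟨N0, hN0⟩ := Pool.Agent.Y965.GP.unif_seq ha0 hc (fun N hN F hF => hb σ hσ N hN F hF) hnat hε
    refine ⟨N0, fun N hN S hS => ?_⟩
    obtain ⟨μ, hμ⟩ := hdens S hS
    refine ⟨μ, (DSs_iff hσ S μ).1 hμ, ?_⟩
    have h3 := hN0 N hN S hS μ hμ
    unfold Pool.Agent.Y965.GP.ind at h3
    rw [Finset.sum_boole] at h3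
    exact h3

end Pool.Agent.Results.MP_39d40e_nt.PiatetskiShapiroTerms
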