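import Pool.Agent.H319R2.LeighBridge
import Pool.Agent.Y927.GP.F
import Pool.Agent.Y927.GP.N

set_option autoImplicit false

/-!
# Leigh's Markov chain and the values of a polynomial

Let `C` be a finite closed communicating class of Leigh's chain of a generalised Collatz map `T` modulo
`d`, with the number `Λ = Λ_C`, and let `f` be a polynomial of degree `D ≥ 1` with integer coefficients.
In every interval of length `Y`, for all but `K Y^(1 - δ)` of the integers `n` with `f n ∈ S_C` the first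
`log_d Y` terms of the trajectory of `f n` are `Λ^j |f n|`, up to a factor `Y^ε`. So for almost all `n`
with `f n ∈ S_C` (with a power saving) the trajectory of `f n` falls below
`|f n|^(1 + log_d Λ / D + ε)` if `Λ < 1`, and rises above `|f n|^(1 + log_d Λ / D - ε)` if `Λ > 1`.

Method. Large deviations for Leigh's chain (eigenvectors of tilted transition matrices) show that only
`d^(N (1 - c))` of the residue classes modulo `d^N` contain elements of `S_C` whose first `N` residues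
are not balanced. If `f n ≡ f n'` modulo `d^N`, `n ≡ n'` modulo `d^j` and no `p^j` with `p ∣ d` prime
divides `f' n`, then `n ≡ n'` modulo `d^(N - j)`. So, away from the few `n` for which `f' n` is divisible
by a high power of such a prime (Vandermonde determinant), the values of `f` are spread out modulo `d^N`.
-/

namespace Pool.Agent.Results.MP_39d40e_nt.PolynomialTrajectories

open Polynomial Pool.Agent.H319R2.Leigh Pool.Agent.Y927

/-- For `d ^ j ≤ Y` the term `T^j x` of the trajectory of `x` has absolute value `L ^ j |x|`, up to a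
factor between `Y ^ (-ε)` and `Y ^ ε`. -/
def Follows (d : ℕ) (m r : ℤ → ℤ) (L ε Y : ℝ) (x : ℤ) : Prop :=
  ∀ j : ℕ, (d : ℝ) ^ j ≤ Y →
    Y ^ (-ε) * L ^ j * |(x : ℝ)| ≤ |(((T d m r)^[j] x : ℤ) : ℝ)| ∧
    |(((T d m r)^[j] x : ℤ) : ℝ)| ≤ Y ^ ε * L ^ j * |(x : ℝ)|

section

variable {d : ℕ} {m r b : ℤ → ℤ} {e : ℤ → ℕ} {C : Finset (ℤ × ℕ)} {ρ : ℤ × ℕ → ℝ}

theorem lam_pos (D : Data d m r b e) : 0 < Lam d m C ρ := by
  unfold Lam
  apply Finset.prod_pos
  intro i hi
  rw [Finset.mem_range] at hi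
  have h := (gm D).ne i (by positivity) (by exact_mod_cast hi)
  have h2 : ((m (i : ℤ) : ℤ) : ℝ) ≠ 0 := by exact_mod_cast h
  have hd0 : (0 : ℝ) < d := by
    have : 0 < d := by have := D.two_le; omega
    exact_mod_cast this
  positivity

theorem mu_eq (D : Data d m r b e) (hC : Class d m r e C ρ) :
    GP.mu (gm D) C ρ = Real.log (Lam d m C ρ) := (log_Lam D hC).symm

/-- `Λ_C ≥ 1 / d` -/
theorem log_ge (D : Data d m r b e) (hC : Class d m r e C ρ) :
    -Real.log d ≤ Real.log (Lam d m C ρ) := by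
  have hd0 : (0 : ℝ) < d := by
    have : 0 < d := by have := D.two_le; omega
    exact_mod_cast this
  rw [log_Lam D hC]
  have h1 : ∀ B ∈ C, ρ B * (-Real.log d) ≤ ρ B * Real.log ((gm D).a (B.1 % (gm D).d)) := by
    intro B hB
    apply mul_le_mul_of_nonneg_left _ (hC.nonneg B hB)
    rw [← Real.log_inv]
    apply Real.log_le_log (by positivity)
    have h2 := (gm D).res_nonneg B.1
    have h3 := (gm D).res_lt B.1
    have h4 := (gm D).ne _ h2 h3
    have h5 : (1 : ℝ) ≤ |(((gm D).m (B.1 % (gm D).d) : ℤ) : ℝ)| := by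
      have := Int.one_le_abs h4
      exact_mod_cast this
    have h6 : (gm D).a (B.1 % (gm D).d) = |(((gm D).m (B.1 % (gm D).d) : ℤ) : ℝ)| / d := rfl
    rw [h6, inv_eq_one_div]
    gcongr
  refine le_trans (le_of_eq ?_) (Finset.sum_le_sum h1)
  rw [← Finset.sum_mul, hC.sum_one, one_mul]

theorem typ_iff (D : Data d m r b e) (hC : Class d m r e C ρ) (ε Y : ℝ) (x : ℤ) :
    GP.Typ (gm D) (GP.mu (gm D) C ρ) ε Y x ↔ Follows d m r (Lam d m C ρ) ε Y x := by
  unfold GP.Typ Follows
  rw [mu_eq D hC, gm_T]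
  have h1 : ∀ j : ℕ, Real.exp (j * Real.log (Lam d m C ρ)) = Lam d m C ρ ^ j := by
    intro j
    rw [Real.exp_nat_mul, Real.exp_log (lam_pos D)]
  simp only [h1]
  exact Iff.rfl

end

/-- **Main theorem.** Let `T` be a generalised Collatz map modulo `d`, `C` a finite closed communicating
class of its Leigh chain with stationary distribution `ρ`, and `f` a polynomial of degree `D ≥ 1` with
integer coefficients. Let `D ≥ 2` or `Λ_C > 1 / d`, and let `ε > 0`.
1. There are `δ, K > 0` such that every interval `(X, X + Y]`, `Y ≥ 1`, contains at most `K Y ^ (1 - δ)`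
integers `n` such that `f n ∈ S_C` and the trajectory of `f n` does not follow the law `Λ^j |f n|` for
`log_d Y` steps.
2. If `Λ_C < 1`, there are `δ, K > 0` such that for all `X ≥ 1` and all but `K X ^ (1 - δ)` of the
`n ∈ [-X, X]` with `f n ∈ S_C` the trajectory of `f n` has a term of absolute value at most
`|f n| ^ (1 + log_d Λ_C / D + ε)`.
3. If `Λ_C > 1`, there are `δ, K > 0` such that for all `X ≥ 1` and all but `K X ^ (1 - δ)` of the
`n ∈ [-X, X]` with `f n ∈ S_C` the trajectory of `f n` has a term of absolute value at least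
`|f n| ^ (1 + log_d Λ_C / D - ε)`. -/
theorem result (d : ℕ) (m r b : ℤ → ℤ) (e : ℤ → ℕ) (D : Data d m r b e) (C : Finset (ℤ × ℕ))
    (ρ : ℤ × ℕ → ℝ) (hC : Class d m r e C ρ) (f : ℤ[X]) (hf : 1 ≤ f.natDegree)
    (hne : 2 ≤ f.natDegree ∨ 1 / (d : ℝ) < Lam d m C ρ) (ε : ℝ) (hε : 0 < ε) :
    (∃ δ K : ℝ, 0 < δ ∧ 0 < K ∧ ∀ (X : ℤ) (Y : ℝ), 1 ≤ Y →
      ({n : ℤ | X < n ∧ (n : ℝ) ≤ X + Y ∧ f.eval n ∈ S d C ∧
        ¬ Follows d m r (Lam d m C ρ) ε Y (f.eval n)}.ncard : ℝ) ≤ K * Y ^ (1 - δ)) ∧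
    (Lam d m C ρ < 1 → ∃ δ K : ℝ, 0 < δ ∧ 0 < K ∧ ∀ X : ℝ, 1 ≤ X →
      ({n : ℤ | |(n : ℝ)| ≤ X ∧ f.eval n ∈ S d C ∧ ∀ k : ℕ,
        |((f.eval n : ℤ) : ℝ)| ^ (1 + Real.log (Lam d m C ρ) / Real.log d / f.natDegree + ε) <
          |(((T d m r)^[k] (f.eval n) : ℤ) : ℝ)|}.ncard : ℝ) ≤ K * X ^ (1 - δ)) ∧
    (1 < Lam d m C ρ → ∃ δ K : ℝ, 0 < δ ∧ 0 < K ∧ ∀ X : ℝ, 1 ≤ X →
      ({n : ℤ | |(n : ℝ)| ≤ X ∧ f.eval n ∈ S d C ∧ ∀ k : ℕ,
        |(((T d m r)^[k] (f.eval n) : ℤ) : ℝ)| <
          |((f.eval n : ℤ) : ℝ)| ^ (1 + Real.log (Lam d m C ρ) / Real.log d / f.natDegree - ε)}.ncard :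
            ℝ) ≤ K * X ^ (1 - δ)) := by
  classical
  have hd1 : (1 : ℝ) < d := by
    have : 1 < d := by have := D.two_le; omega
    exact_mod_cast this
  have hL0 : 0 < Real.log d := Real.log_pos hd1
  have hlam := lam_pos (C := C) (ρ := ρ) D
  have hge := log_ge D hC
  set L := Lam d m C ρ with hL
  have hdeg1 : (1 : ℝ) ≤ f.natDegree := by exact_mod_cast hf
  -- the exponent
  have hκ : -Real.log L / Real.log d < f.natDegree := by
    rcases hne with h | h
    · have h1 : -Real.log L / Real.log d ≤ 1 := by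
        rw [div_le_one hL0]; linarith
      have h2 : (2 : ℝ) ≤ f.natDegree := by exact_mod_cast h
      linarith
    · have h1 : -Real.log L / Real.log d < 1 := by
        rw [div_lt_one hL0]
        have h2 := Real.log_lt_log (by positivity) h
        rw [one_div, Real.log_inv] at h2
        linarith
      linarith
  refine ⟨?_, fun hlt => ?_, fun hgt => ?_⟩
  · obtain ⟨δ, K, hδ, -, hK, h⟩ := GP.main (gm_fac D) (gm_cls D hC) hf
      (κ := max 0 (-Real.log L / Real.log d)) (le_max_left _ _) (by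
        rw [mu_eq D hC]
        have h1 : -Real.log L / Real.log d ≤ max 0 (-Real.log L / Real.log d) := le_max_right _ _
        rw [div_le_iff₀ hL0] at h1
        exact h1) (max_lt (by linarith) hκ) hε
    refine ⟨δ, K, hδ, hK, fun X Y hY => ?_⟩
    apply GP.ncard_int (P := fun n : ℤ => f.eval n ∈ S d C ∧ ¬ Follows d m r L ε Y (f.eval n))
    intro A hA hbad
    exact h X Y hY A hA (fun n hn => ⟨(hbad n hn).1, fun htyp =>
      (hbad n hn).2 ((typ_iff D hC ε Y _).1 htyp)⟩)
  · have hκ0 : 0 < -Real.log L / Real.log d := by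
      have := Real.log_neg hlam hlt
      apply div_pos _ hL0
      linarith
    obtain ⟨δ, K, hδ, -, hK, h⟩ := GP.low_main (gm_fac D) (gm_cls D hC) hf hκ0 (by
      rw [mu_eq D hC]
      have : ((gm D).d : ℝ) = d := rfl
      rw [this]
      field_simp
      rw [hL]) hκ hε
    refine ⟨δ, K, hδ, hK, fun X hX => ?_⟩
    apply GP.ncard_sym (P := fun n : ℤ => f.eval n ∈ S d C ∧ ∀ k : ℕ,
        |((f.eval n : ℤ) : ℝ)| ^ (1 + Real.log L / Real.log d / f.natDegree + ε) <
          |(((T d m r)^[k] (f.eval n) : ℤ) : ℝ)|)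
    intro A hA
    apply h X hX A
    intro n hn
    obtain ⟨h1, h2, h3⟩ := hA n hn
    refine ⟨h1, h2, fun k => ?_⟩
    have h4 := h3 k
    have e1 : 1 - -Real.log L / Real.log d / f.natDegree + ε =
        1 + Real.log L / Real.log d / f.natDegree + ε := by ring
    rw [e1]
    exact h4
  · have hτ0 : 0 < Real.log L / Real.log d := div_pos (Real.log_pos hgt) hL0
    obtain ⟨δ, K, hδ, -, hK, h⟩ := GP.up_main (gm_fac D) (gm_cls D hC) hf hτ0 (by
      rw [mu_eq D hC]
      have : ((gm D).d : ℝ) = d := rfl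
      rw [this]
      field_simp
      rw [hL]) hε
    refine ⟨δ, K, hδ, hK, fun X hX => ?_⟩
    apply GP.ncard_sym (P := fun n : ℤ => f.eval n ∈ S d C ∧ ∀ k : ℕ,
        |(((T d m r)^[k] (f.eval n) : ℤ) : ℝ)| <
          |((f.eval n : ℤ) : ℝ)| ^ (1 + Real.log L / Real.log d / f.natDegree - ε))
    intro A hA
    exact h X hX A (fun n hn => ⟨(hA n hn).1, (hA n hn).2.1, (hA n hn).2.2⟩)

end Pool.Agent.Results.MP_39d40e_nt.PolynomialTrajectories
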