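import Pool.Agent.Results.MP_39d40e_nt.NaturalDensities
import Pool.Agent.Y854.IN.Coll

/-!
# Generalised Collatz maps of coprime type along the sequences `⌊α n ^ c⌋`

Maps of coprime type with `∏ |m_i / d| < 1`: the invariant sets have along the sequences `⌊α n ^ c⌋` the same densities
as among all integers, uniformly in the set, for every `c > 1` and all `α > 0` outside a set of dimension less than one
which depends neither on the map nor on the set.
-/

set_option autoImplicit false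

namespace Pool.Agent.Results.MP_39d40e_nt.SparseSequences

open Finset Filter Topology

/-- The generalised Collatz map `T(x) = (m_i x - r_i) / d` for `x ≡ i mod d`, `0 ≤ i < d`. -/
def T (d : ℕ) (m r : ℕ → ℤ) (x : ℤ) : ℤ := (m (x % d).toNat * x - r (x % d).toNat) / d

/-- `S` is invariant: `x ∈ S` if and only if `T x ∈ S` (unions of classes of trajectories that
meet). -/
def Invariant (d : ℕ) (m r : ℕ → ℤ) (S : Set ℤ) : Prop := ∀ x : ℤ, x ∈ S ↔ T d m r x ∈ S

/-- `S` has natural density `δ` on the side `σ` (`σ = 1`: positive integers, `σ = -1`: negative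
integers): `#{x ∈ S : 1 ≤ σ x ≤ N} / N → δ`. -/
def HasDensity (S : Set ℤ) (σ : ℤ) (δ : ℝ) : Prop :=
  Tendsto (fun N : ℕ => (Set.ncard {x : ℤ | x ∈ S ∧ 1 ≤ σ * x ∧ σ * x ≤ N} : ℝ) / N) atTop (𝓝 δ)

/-- The data of a map of coprime type (`gcd(m_i, d) = 1`) with `Λ < 1`, that is `∏ |m_i / d| < 1`. -/
def Coprime (d : ℕ) (m r : ℕ → ℤ) : Prop :=
  2 ≤ d ∧ (∀ i < d, IsCoprime (m i) (d : ℤ)) ∧ (∀ i < d, r i ≡ i * m i [ZMOD d]) ∧
    ∏ i ∈ range d, |(m i : ℝ) / d| < 1

/-- The integers whose trajectories diverge, that is are not eventually periodic. -/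
def Divergent (d : ℕ) (m r : ℕ → ℤ) : Set ℤ :=
  {x : ℤ | ¬ ∃ k p : ℕ, 1 ≤ p ∧ (T d m r)^[k + p] x = (T d m r)^[k] x}

lemma divergent_inv (d : ℕ) (m r : ℕ → ℤ) : Invariant d m r (Divergent d m r) := by
  intro x
  unfold Divergent
  rw [Set.mem_ofPred_eq, Set.mem_ofPred_eq, not_iff_not]
  constructor
  · rintro ⟨k, p, hp, h⟩
    refine ⟨k, p, hp, ?_⟩
    have h1 : (T d m r)^[k + p + 1] x = (T d m r)^[k + 1] x := by
      rw [Function.iterate_succ_apply', h, ← Function.iterate_succ_apply' (T d m r) k x]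
    rw [Function.iterate_succ_apply, Function.iterate_succ_apply] at h1
    exact h1
  · rintro ⟨k, p, hp, h⟩
    refine ⟨k + 1, p, hp, ?_⟩
    rw [← Function.iterate_succ_apply, ← Function.iterate_succ_apply] at h
    rw [show k + 1 + p = k + p + 1 by ring]
    exact h

/-- the map with the data given by lists -/
def TL (q : ℕ × List ℤ × List ℤ) : ℤ → ℤ := T q.1 (fun i => q.2.1.getD i 0) (fun i => q.2.2.getD i 0)

lemma TL_eq {d : ℕ} (hd : 2 ≤ d) (m r : ℕ → ℤ) :
    TL (d, (List.range d).map m, (List.range d).map r) = T d m r := by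
  funext x
  unfold TL T
  simp only
  have h1 : (x % d).toNat < d := by
    have h2 : 0 ≤ x % (d : ℤ) := Int.emod_nonneg _ (by omega)
    have h3 : x % (d : ℤ) < d := Int.emod_lt_of_pos _ (by omega)
    omega
  have h2 : ∀ f : ℕ → ℤ, ((List.range d).map f).getD (x % d).toNat 0 = f (x % d).toNat := by
    intro f
    rw [List.getD_eq_getElem _ _ (by simpa using h1), List.getElem_map, List.getElem_range]
  rw [h2, h2]

lemma DS_iff {S : Set ℤ} {σ : ℤ} (hσ : σ = 1 ∨ σ = -1) {δ : ℝ} :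
    Pool.Agent.Y854.IN.DS σ S δ ↔ HasDensity S σ δ := by
  unfold Pool.Agent.Y854.IN.DS HasDensity
  have e : (fun N : ℕ => (Set.ncard {x : ℤ | x ∈ S ∧ 1 ≤ σ * x ∧ σ * x ≤ N} : ℝ) / N) =
      (fun X : ℕ => (∑ t ∈ Ioc 0 X, Pool.Agent.Y854.IN.ind σ S t) / X) := by
    funext N
    rw [Pool.Agent.Y854.IN.ncard_eq hσ]
  rw [e]

open Classical in
/-- **Generalised Collatz maps along sparse sequences.** For every `c > 1` there is a set `E` of real numbers of
Hausdorff dimension less than one such that for every `α > 0` outside `E`, ALL generalised Collatz maps `T` of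
coprime type with `Λ < 1` and both signs `σ`, with `x_n = σ ⌊α n ^ c⌋`:
(1) if not all `|m_i|` are equal, every invariant set has a natural density on the side `σ`, and for every `ε > 0`,
for all large `N` and for ALL invariant sets `S` at once the proportion of the `n ≤ N` with `x_n ∈ S` differs from
the natural density of `S` by at most `ε`;
(2) for every `B` there is `C` such that for all `y ≥ 2`, `ε > 0` and all large `N` for all but at most
`(C / (log y) ^ B + ε) N` of the `n ≤ N` the trajectory of `x_n` enters `[-y, y]`;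
(3) if not all `|m_i|` are equal, the divergent trajectories have natural density zero on the side `σ` if and only if
for every `ε > 0` there are arbitrarily large `N` such that at most `ε N` of the `x_n`, `n ≤ N`, have a divergent
trajectory. -/
theorem result (c : ℝ) (hc : 1 < c) : ∃ E : Set ℝ, dimH E < 1 ∧ ∀ α : ℝ, 0 < α → α ∉ E →
    ∀ (d : ℕ) (m r : ℕ → ℤ), Coprime d m r → ∀ σ : ℤ, (σ = 1 ∨ σ = -1) →
      ((∃ i < d, ∃ j < d, |m i| ≠ |m j|) →
        (∀ S : Set ℤ, Invariant d m r S → ∃ δ : ℝ, HasDensity S σ δ) ∧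
        ∀ ε : ℝ, 0 < ε → ∃ N₀ : ℕ, ∀ N : ℕ, N₀ ≤ N → ∀ S : Set ℤ, Invariant d m r S → ∀ δ : ℝ, HasDensity S σ δ →
          |(((Icc 1 N).filter (fun n : ℕ => σ * (⌊α * (n : ℝ) ^ c⌋₊ : ℤ) ∈ S)).card : ℝ) / N - δ| ≤ ε) ∧
      (∀ B : ℕ, ∃ C : ℝ, 0 < C ∧ ∀ y : ℕ, 2 ≤ y → ∀ ε : ℝ, 0 < ε → ∃ N₀ : ℕ, ∀ N : ℕ, N₀ ≤ N →
        (((Icc 1 N).filter (fun n : ℕ => ¬ ∃ k : ℕ, |(T d m r)^[k] (σ * (⌊α * (n : ℝ) ^ c⌋₊ : ℤ))| ≤ y)).card : ℝ) ≤
          (C / Real.log y ^ B + ε) * N) ∧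
      ((∃ i < d, ∃ j < d, |m i| ≠ |m j|) → (HasDensity (Divergent d m r) σ 0 ↔
        ∀ ε : ℝ, 0 < ε → ∀ M : ℕ, ∃ N : ℕ, M ≤ N ∧
          (((Icc 1 N).filter (fun n : ℕ => σ * (⌊α * (n : ℝ) ^ c⌋₊ : ℤ) ∈ Divergent d m r)).card : ℝ) ≤ ε * N)) := by
  obtain ⟨E1, hE1, h1⟩ := Pool.Agent.Y854.IN.law c hc TL
  obtain ⟨E2, hE2, h2⟩ := Pool.Agent.Y854.GM.sets c hc
    (fun q : (ℕ × List ℤ × List ℤ) × Bool × ℕ => {t : ℕ | (Pool.Agent.Y854.IN.sgn q.2.1) * (t : ℤ) ∈
      {x : ℤ | ∀ k : ℕ, ((q.2.2 : ℕ) : ℝ) < |(((TL q.1)^[k] x : ℤ) : ℝ)|}})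
  refine ⟨E1 ∪ E2, ?_, fun α hα hαE d m r hco σ hσ => ?_⟩
  · rw [dimH_union]
    exact max_lt hE1 hE2
  obtain ⟨hd, hm, hr, hL⟩ := hco
  have hTL := TL_eq hd m r
  have hmain : (∃ i < d, ∃ j < d, |m i| ≠ |m j|) →
      (∀ S : Set ℤ, Invariant d m r S → ∃ δ : ℝ, HasDensity S σ δ) ∧
      ∀ ε : ℝ, 0 < ε → ∃ N₀ : ℕ, ∀ N : ℕ, N₀ ≤ N → ∀ S : Set ℤ, Invariant d m r S → ∀ δ : ℝ, HasDensity S σ δ →
        |(((Icc 1 N).filter (fun n : ℕ => σ * (⌊α * (n : ℝ) ^ c⌋₊ : ℤ) ∈ S)).card : ℝ) / N - δ| ≤ ε := by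
    intro hne
    obtain ⟨r1, _, r3⟩ := NaturalDensities.result d hd m r hm hr hL hne
    have hdens : ∀ S : Set ℤ, Invariant d m r S → ∃ δ : ℝ, HasDensity S σ δ := by
      intro S hS
      obtain ⟨a, b, ha, hb, _⟩ := r1 S hS
      rcases hσ with rfl | rfl
      · exact ⟨a, ha⟩
      · exact ⟨b, hb⟩
    refine ⟨hdens, fun ε hε => ?_⟩
    have hq := h1 α hα (fun h => hαE (Or.inl h)) (d, (List.range d).map m, (List.range d).map r) σ hσ
    rw [hTL] at hq
    obtain ⟨N₀, hN₀⟩ := hq (fun S hS => by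
      obtain ⟨δ, hδ⟩ := hdens S hS
      exact ⟨δ, (DS_iff hσ).2 hδ⟩)
      (fun ε hε => by
        obtain ⟨C, hC, hCy⟩ := r3 1
        obtain ⟨y, hy⟩ := ((Real.tendsto_log_atTop.comp tendsto_natCast_atTop_atTop).eventually
          (eventually_ge_atTop (C / ε))).exists_forall_of_atTop
        refine ⟨max y 2, fun δ hδ => ?_⟩
        have hy2 : (2 : ℝ) ≤ ((max y 2 : ℕ) : ℝ) := by exact_mod_cast le_max_right y 2
        have h3 := hCy (Pool.Agent.Y854.IN.Rem (T d m r) (max y 2)) (Pool.Agent.Y854.IN.rem_inv _ _) (max y 2 : ℕ) hy2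
          (fun x hx => by
            by_contra hcon
            push Not at hcon
            have h4 : |x| ≤ ((max y 2 : ℕ) : ℤ) := by exact_mod_cast hcon
            exact hx x h4 0 0 rfl) σ hσ δ ((DS_iff hσ).1 hδ)
        have hl : C / ε ≤ Real.log ((max y 2 : ℕ) : ℝ) := hy _ (le_max_left _ _)
        have hl0 : 0 < Real.log ((max y 2 : ℕ) : ℝ) := Real.log_pos (by linarith)
        refine h3.trans ?_
        rw [pow_one, div_le_iff₀ hl0]
        rw [div_le_iff₀ hε] at hl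
        linarith) ε hε
    refine ⟨N₀, fun N hN S hS δ hδ => ?_⟩
    rw [Pool.Agent.Y854.IN.seq_eq]
    exact hN₀ N hN S hS δ ((DS_iff hσ).2 hδ)
  refine ⟨hmain, fun B => ?_, fun hne => ?_⟩
  · have hd0 : (0 : ℝ) < d := by positivity
    have hadm : ∀ i < d, (d : ℤ) ∣ m i * i - r i := by
      intro i hi
      have h1 := (hr i hi).dvd
      rwa [mul_comm (i : ℤ)] at h1
    have hc' : ∏ i ∈ range d, (m i).natAbs < d ^ d := by
      have h1 : ∏ i ∈ range d, |(m i : ℝ) / d| = (∏ i ∈ range d, |(m i : ℝ)|) / (d : ℝ) ^ d := by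
        simp only [abs_div, abs_of_pos hd0]
        rw [Finset.prod_div_distrib, Finset.prod_const, card_range]
      rw [h1, div_lt_one (by positivity)] at hL
      have h2 : ((∏ i ∈ range d, (m i).natAbs : ℕ) : ℝ) = ∏ i ∈ range d, |(m i : ℝ)| := by
        push_cast
        refine Finset.prod_congr rfl fun i _ => ?_
        rw [Nat.cast_natAbs]
        push_cast
        rfl
      have h3 : ((∏ i ∈ range d, (m i).natAbs : ℕ) : ℝ) < ((d ^ d : ℕ) : ℝ) := by
        rw [h2]; push_cast; exact hL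
      exact_mod_cast h3
    obtain ⟨C, hC, hmn⟩ := Pool.Agent.H319R3.GC.main_all hd hm hadm hc' B
    refine ⟨C, hC, fun y hy ε hε => ?_⟩
    have hyR : (2 : ℝ) ≤ y := by exact_mod_cast hy
    obtain ⟨b, hb⟩ := Pool.Agent.Y854.IN.exists_code hσ
    have hq := (h2 α hα (fun h => hαE (Or.inr h)) ((d, (List.range d).map m, (List.range d).map r), b, y)
      (C / Real.log y ^ B) ε hε).1 ⟨1, fun X hX => by
        simp only
        rw [hTL, hb]
        have hX1 : (1 : ℝ) ≤ X := by exact_mod_cast hX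
        have h3 := hmn X y hX1 hyR
        have hfin : {x : ℤ | |(x : ℝ)| ≤ (X : ℝ) ∧ x ∈ {x : ℤ | ∀ k : ℕ, ((y : ℕ) : ℝ) < |(((T d m r)^[k] x : ℤ) : ℝ)|}}.Finite := by
          refine (Set.finite_Icc (-(X : ℤ)) X).subset ?_
          rintro x ⟨hx, -⟩
          have h2 : |x| ≤ (X : ℤ) := by exact_mod_cast hx
          exact Set.mem_Icc.2 (abs_le.1 h2)
        refine (Pool.Agent.Y854.IN.side_le hσ _ X hfin).trans (h3.trans (le_of_eq ?_))
        ring⟩
    obtain ⟨N₀, hN₀⟩ := hq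
    refine ⟨N₀, fun N hN => le_trans ?_ (hN₀ N hN)⟩
    simp only
    rw [hTL, hb]
    have hsub : (Icc 1 N).filter (fun n : ℕ => ¬ ∃ k : ℕ, |(T d m r)^[k] (σ * (⌊α * (n : ℝ) ^ c⌋₊ : ℤ))| ≤ y) ⊆
        (Icc 1 N).filter (fun n : ℕ => ⌊α * (n : ℝ) ^ c⌋₊ ∈ {t : ℕ | σ * (t : ℤ) ∈
          {x : ℤ | ∀ k : ℕ, ((y : ℕ) : ℝ) < |(((T d m r)^[k] x : ℤ) : ℝ)|}}) := by
      intro n hn
      rw [mem_filter] at hn ⊢
      refine ⟨hn.1, fun k => ?_⟩
      have h3 := hn.2
      push Not at h3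
      exact_mod_cast h3 k
    exact_mod_cast card_le_card hsub
  · obtain ⟨hdens, hlim⟩ := hmain hne
    have hinv := divergent_inv d m r
    constructor
    · intro h0 ε hε M
      obtain ⟨N₀, hN₀⟩ := hlim ε hε
      refine ⟨max (max N₀ M) 1, (le_max_right _ _).trans (le_max_left _ _), ?_⟩
      have h3 := hN₀ (max (max N₀ M) 1) ((le_max_left _ _).trans (le_max_left _ _)) _ hinv 0 h0
      have hN : (0 : ℝ) < ((max (max N₀ M) 1 : ℕ) : ℝ) := by
        have : 0 < max (max N₀ M) 1 := lt_of_lt_of_le one_pos (le_max_right _ _)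
        exact_mod_cast this
      rw [sub_zero] at h3
      have h4 := (abs_le.1 h3).2
      rw [div_le_iff₀ hN] at h4
      exact h4
    · intro h3
      obtain ⟨δ, hδ⟩ := hdens _ hinv
      have hδ0 : 0 ≤ δ := ge_of_tendsto' hδ (fun N => by positivity)
      have hδ1 : δ ≤ 0 := by
        by_contra hpos
        push Not at hpos
        obtain ⟨N₀, hN₀⟩ := hlim (δ / 4) (by positivity)
        obtain ⟨N, hN, hN1⟩ := h3 (δ / 4) (by positivity) (max N₀ 1)
        have h4 := hN₀ N ((le_max_left _ _).trans hN) _ hinv δ hδ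
        have hNp : (0 : ℝ) < N := by
          have : 0 < N := lt_of_lt_of_le one_pos ((le_max_right _ _).trans hN)
          exact_mod_cast this
        have h5 := (abs_le.1 h4).1
        have h6 : (((Icc 1 N).filter (fun n : ℕ => σ * (⌊α * (n : ℝ) ^ c⌋₊ : ℤ) ∈ Divergent d m r)).card : ℝ) / N ≤ δ / 4 := by
          rw [div_le_iff₀ hNp]
          exact hN1
        linarith
      have : δ = 0 := le_antisymm hδ1 hδ0
      rw [← this]
      exact hδ

end Pool.Agent.Results.MP_39d40e_nt.SparseSequences
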